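import Pool.Agent.Helper46.TT.Derived2

/-!
Conservativity of `f^*` does not imply conservativity of `f^!`.
-/

namespace Pool.Agent.Results.MP_9fe44b_al.DerivedBaseChange

open CategoryTheory Limits ZeroObject

universe w₁ w₂

section

variable (A B : Type) [CommRing A] [CommRing B] [Algebra A B] [Module.FaithfullyFlat A B]
  [HasDerivedCategory.{w₁} (ModuleCat.{0} A)] [HasDerivedCategory.{w₂} (ModuleCat.{0} B)]

/-- The functor `f^* : D(A) → D(B)`, the extension of scalars along `A → B`
(an exact functor, as `B` is flat over `A`), applied to complexes term by term. -/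
noncomputable def fUpper : DerivedCategory (ModuleCat.{0} A) ⥤ DerivedCategory (ModuleCat.{0} B) :=
  haveI : PreservesFiniteLimits (ModuleCat.extendScalars (algebraMap A B)) :=
    ModuleCat.preservesFiniteLimits_extendScalars_of_flat
      (RingHom.flat_algebraMap_iff.2 inferInstance)
  haveI : (ModuleCat.extendScalars (algebraMap A B)).Additive :=
    (ModuleCat.extendRestrictScalarsAdj (algebraMap A B)).left_adjoint_additive
  (ModuleCat.extendScalars.{0, 0, 0} (algebraMap A B)).mapDerivedCategory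

omit [Module.FaithfullyFlat A B] in
/-- The functor `f_* : D(B) → D(A)`, the restriction of scalars along `A → B`. -/
noncomputable def fLower : DerivedCategory (ModuleCat.{0} B) ⥤ DerivedCategory (ModuleCat.{0} A) :=
  (ModuleCat.restrictScalars.{0, 0, 0} (algebraMap A B)).mapDerivedCategory

end

/-- The unit object `A` of `D(A)`. -/
noncomputable def unit (A : Type) [CommRing A] [HasDerivedCategory.{w₁} (ModuleCat.{0} A)] :
    DerivedCategory (ModuleCat.{0} A) :=
  (DerivedCategory.singleFunctor _ 0).obj (ModuleCat.of A A)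

open Pool.Agent.Helper46.TT in
lemma fUpper_reflects (A B : Type) [CommRing A] [CommRing B] [Algebra A B]
    [Module.FaithfullyFlat A B]
    [HasDerivedCategory.{w₁} (ModuleCat.{0} A)] [HasDerivedCategory.{w₂} (ModuleCat.{0} B)] :
    (fUpper A B).ReflectsIsomorphisms :=
  conserv (F := ext A B)

open Pool.Agent.Helper46.TT in
lemma fUpper_adj (A B : Type) [CommRing A] [CommRing B] [Algebra A B]
    [Module.FaithfullyFlat A B]
    [HasDerivedCategory.{w₁} (ModuleCat.{0} A)] [HasDerivedCategory.{w₂} (ModuleCat.{0} B)] :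
    Nonempty (fUpper A B ⊣ fLower A B) :=
  ⟨adjD (F := ext A B) (G := res A B) (ModuleCat.extendRestrictScalarsAdj (algebraMap A B))⟩

lemma unit_ne (A : Type) [CommRing A] [Nontrivial A]
    [HasDerivedCategory.{w₁} (ModuleCat.{0} A)] : ¬ IsZero (unit A) := by
  intro h
  have h1 : (DerivedCategory.singleFunctor (ModuleCat.{0} A) 0).map (𝟙 (ModuleCat.of A A)) =
      (DerivedCategory.singleFunctor (ModuleCat.{0} A) 0).map 0 :=
    IsZero.eq_of_src h _ _
  have h2 := (DerivedCategory.singleFunctor (ModuleCat.{0} A) 0).map_injective h1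
  have h3 := congrArg (fun (f : ModuleCat.of A A ⟶ ModuleCat.of A A) => f.hom (1 : A)) h2
  exact one_ne_zero (α := A) h3

lemma isZero_of_adj {C D : Type*} [Category* C] [Category* D] [HasZeroMorphisms C]
    [HasZeroMorphisms D] {F : C ⥤ D} {G : D ⥤ C} (adj : F ⊣ G) {X : D}
    (h : ∀ (Y : C) (f : F.obj Y ⟶ X), f = 0) : IsZero (G.obj X) := by
  rw [IsZero.iff_id_eq_zero]
  apply (adj.homEquiv _ _).symm.injective
  rw [h _ ((adj.homEquiv _ _).symm (𝟙 (G.obj X))), h _ ((adj.homEquiv _ _).symm 0)]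

theorem result :
    ∃ (A B : Type) (_ : CommRing A) (_ : CommRing B) (_ : Algebra A B)
      (_ : Module.FaithfullyFlat A B),
      ∀ (_ : HasDerivedCategory.{w₁} (ModuleCat.{0} A))
        (_ : HasDerivedCategory.{w₂} (ModuleCat.{0} B)),
        (fUpper A B).ReflectsIsomorphisms ∧
        Nonempty (fUpper A B ⊣ fLower A B) ∧
        (∀ (Y : DerivedCategory (ModuleCat.{0} B)) (f : (fLower A B).obj Y ⟶ unit A), f = 0) ∧
        ¬ IsZero (unit A) ∧
        ∀ (fShriek : DerivedCategory (ModuleCat.{0} A) ⥤ DerivedCategory (ModuleCat.{0} B)),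
          Nonempty (fLower A B ⊣ fShriek) →
            IsZero (fShriek.obj (unit A)) ∧ ¬ fShriek.ReflectsIsomorphisms := by
  refine ⟨Pool.Agent.Helper46.TT.R, Pool.Agent.Helper46.TT.R', inferInstance, inferInstance,
    inferInstance, inferInstance, fun _ _ => ⟨fUpper_reflects _ _, fUpper_adj _ _,
      fun Y f => Pool.Agent.Helper46.TT.derived_zero
        (Pool.Agent.Helper46.TT.ext_zero Pool.Agent.Helper46.TT.ext_vanish) Y f, unit_ne _, ?_⟩⟩
  rintro G ⟨adj⟩
  have h1 : IsZero (G.obj (unit Pool.Agent.Helper46.TT.R)) :=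
    isZero_of_adj adj fun Y f => Pool.Agent.Helper46.TT.derived_zero
      (Pool.Agent.Helper46.TT.ext_zero Pool.Agent.Helper46.TT.ext_vanish) Y f
  have h2 : ¬ IsZero (unit Pool.Agent.Helper46.TT.R) := unit_ne _
  refine ⟨h1, fun h3 => h2 ?_⟩
  have h4 : IsZero (G.obj 0) :=
    isZero_of_adj adj fun Y f => (isZero_zero _).eq_of_tgt _ _
  have h5 : IsIso (G.map (0 : unit Pool.Agent.Helper46.TT.R ⟶ 0)) :=
    ⟨0, h1.eq_of_src _ _, h4.eq_of_src _ _⟩
  have h6 : IsIso (0 : unit Pool.Agent.Helper46.TT.R ⟶ 0) := isIso_of_reflects_iso _ G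
  exact (isZero_zero _).of_iso (asIso (0 : unit Pool.Agent.Helper46.TT.R ⟶ 0))

end Pool.Agent.Results.MP_9fe44b_al.DerivedBaseChange
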